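import Pool.Agent.H91.Milman

set_option autoImplicit false

open H91.Milman in
theorem Pool.Agent.Results.MP_4f9fa7_an.Hexagon.result :
    ∃ (X : Type) (_ : NormedAddCommGroup X) (_ : NormedSpace ℝ X) (ε : ℝ),
    CompleteSpace X ∧ Module.finrank ℝ X = 2 ∧ 0 < ε ∧ betaP X ε < zetaP X ε - 1 :=
  main
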